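import Pool.Agent.Zk51.SQ.Defs

/-!
# Curves with many automorphisms and their reductions: definitions
-/

set_option autoImplicit false

open CategoryTheory

namespace Pool.Agent.Zk51.SG

open Pool.Agent.Zk51.SP Pool.Agent.Zk51.SQ

universe v u

variable {𝒜 : Type u} [Category.{v} 𝒜] [Preadditive 𝒜]

/-- Data on points, group actions on points, base change and reductions. For a code `b` of `(K, S)`
and a natural number `m`, the places in `Place b m` are the finite places of `K` outside `S` and not
above a prime number `≤ m`, each with an extension to the algebraic closure of `K`. -/
structure Reductions (D : Curves 𝒜) where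
  /-- the action of `G` on the points over the algebraic closure -/
  move : ∀ {X : D.V} {G : Type} [Group G], D.Act X G → G → D.Pt X → D.Pt X
  /-- the morphisms on points -/
  pt : ∀ {X Y : D.V}, D.Mor X Y → D.Pt X → D.Pt Y
  /-- `BaseChange X X'`: `X'` is the base change of `X` to a finite extension of its field of
  definition -/
  BaseChange : D.V → D.V → Prop
  /-- the places of `K` outside `S` and not above a prime number `≤ m` -/
  Place : ℕ → ℕ → Type
  /-- the points of the reduction of `X` at `v` (of the special fibre of the smooth model, if there is
  one) over an algebraic closure of the residue field -/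
  Red : ∀ {b m : ℕ}, Place b m → D.V → Type
  /-- the specialisation map -/
  sp : ∀ {b m : ℕ} (v : Place b m) (X : D.V), D.Pt X → Red v X
  /-- the action of `G` on the points of the reduction -/
  moveRed : ∀ {b m : ℕ} (v : Place b m) {X : D.V} {G : Type} [Group G], D.Act X G → G →
    Red v X → Red v X
  /-- the points of the special fibre of the quotient of the smooth model of `X` by `G` -/
  RedQuo : ∀ {b m : ℕ} (_ : Place b m) {X : D.V} {G : Type} [Group G], D.Act X G → Type
  /-- the specialisation map of this model of `X / G` -/
  spQuo : ∀ {b m : ℕ} (v : Place b m) {X : D.V} {G : Type} [Group G] (α : D.Act X G),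
    D.Pt (D.quo α ⊤) → RedQuo v α
  /-- the reduction of the morphism from `X` to `X / G` -/
  ptRed : ∀ {b m : ℕ} (v : Place b m) {X : D.V} {G : Type} [Group G] (α : D.Act X G),
    Red v X → RedQuo v α
  /-- `HeightLe Y B H`: `Y` has genus zero, and over a number field of degree at most `H` there is an
  isomorphism of `Y` with the projective line for which the points of `B` have height at most `H` -/
  HeightLe : ∀ Y : D.V, Set (D.Pt Y) → ℕ → Prop
  /-- `Coord Y P Q H`: `Y` has genus one, and over a number field of degree at most `H` the elliptic
  curve `(Y, P)` has a Weierstrass equation for which the coefficients and, if `Q ≠ P`, the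
  coordinates of `Q` have height at most `H` -/
  Coord : ∀ Y : D.V, D.Pt Y → D.Pt Y → ℕ → Prop

/-- There is a finite group of automorphisms of `X` over its field of definition such that the quotient
has genus at most one. -/
def HasSymmetry (D : Curves 𝒜) (X : D.V) : Prop :=
  ∃ (G : Type) (_ : Group G) (_ : Fintype G) (α : D.Act X G), D.genus (D.quo α ⊤) ≤ 1

variable {D : Curves 𝒜} (R : Reductions D)

namespace Reductions

/-- There is a finite group of automorphisms of `X` over the algebraic closure, that is, over some
finite extension, such that the quotient has genus at most one. -/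
def IsSymmetric (X : D.V) : Prop := ∃ X' : D.V, R.BaseChange X X' ∧ HasSymmetry D X'

/-- `X` has at least `g` automorphisms over the algebraic closure, where `g` is its genus: over some
finite extension a group with at least `g` elements acts faithfully. -/
def HasMany (X : D.V) : Prop :=
  ∃ X' : D.V, R.BaseChange X X' ∧ ∃ (G : Type) (_ : Group G) (_ : Fintype G) (_ : D.Act X' G),
    D.genus X ≤ Fintype.card G

/-- The branch points of `X → X / G`: the images of the points with nontrivial stabiliser. -/
def branch {X : D.V} {G : Type} [Group G] (α : D.Act X G) : Set (D.Pt (D.quo α ⊤)) :=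
  {y | ∃ (x : D.Pt X) (g : G), g ≠ 1 ∧ R.move α g x = x ∧ y = R.pt (D.proj α ⊤) x}

/-- Known facts on a curve `X` over `K` of genus at least two with good reduction outside `S`, with a
group `G` of automorphisms over `K` of order at most `m`, at a place outside `S` and not above a prime
`≤ m`: the group acts on the smooth model; the points of the reduction of the quotient are the orbits
of the points of the reduction of `X`; since the order of the group is prime to the residue
characteristic, the scheme of the fixed points of a subgroup is smooth over the base, and étale for
nontrivial subgroups (a nontrivial automorphism acts nontrivially on the reduction), so that points of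
the reduction fixed by a subgroup lift to points fixed by it, and fixed points of a nontrivial element
with the same specialisation are equal. -/
structure IsTame {b m : ℕ} (v : R.Place b m) {X : D.V} {G : Type} [Group G] (α : D.Act X G) :
    Prop where
  move_mul : ∀ g h x, R.move α (g * h) x = R.move α g (R.move α h x)
  red_one : ∀ y, R.moveRed v α 1 y = y
  red_mul : ∀ g h y, R.moveRed v α (g * h) y = R.moveRed v α g (R.moveRed v α h y)
  equivariant : ∀ g x, R.sp v X (R.move α g x) = R.moveRed v α g (R.sp v X x)
  orbit : ∀ x x', R.pt (D.proj α ⊤) x = R.pt (D.proj α ⊤) x' ↔ ∃ g, R.move α g x = x'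
  orbitRed : ∀ y y', R.ptRed v α y = R.ptRed v α y' ↔ ∃ g, R.moveRed v α g y = y'
  sp_proj : ∀ x, R.spQuo v α (R.pt (D.proj α ⊤) x) = R.ptRed v α (R.sp v X x)
  lift : ∀ (I : Subgroup G) (y : R.Red v X), (∀ g ∈ I, R.moveRed v α g y = y) →
    ∃ x, R.sp v X x = y ∧ ∀ g ∈ I, R.move α g x = x
  unique : ∀ (g : G) (x x' : D.Pt X), g ≠ 1 → R.move α g x = x → R.move α g x' = x' →
    R.sp v X x = R.sp v X x' → x = x'

/-- All facts of this kind. -/
def AllTame : Prop :=
  ∀ {b m : ℕ} (v : R.Place b m) {X : D.V} {G : Type} [Group G] [Fintype G] (α : D.Act X G),
    D.Over b X → 2 ≤ D.genus X → Fintype.card G ≤ m → R.IsTame v α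

/-- The branch locus of `X → X / G` is étale over the ring of `S`-integers of `K` with the primes
`≤ m` inverted: at all places in `Place b m` different branch points have different specialisations.
-/
def IsEtale (b m : ℕ) {X : D.V} {G : Type} [Group G] (α : D.Act X G) : Prop :=
  ∀ (v : R.Place b m), ∀ y ∈ R.branch α, ∀ y' ∈ R.branch α,
    R.spQuo v α y = R.spQuo v α y' → y = y'

/-- The effective theorem of Evertse and Győry on binary forms whose discriminant is a unit: if
`X / G` has genus zero and the branch locus, which is a divisor over `K`, has at most `m` points and is
étale, then there is a coordinate for which the branch points have an effectively bounded height (over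
an extension of `K` of degree at most two, over which `X / G` is the projective line). -/
def HasGyory : Prop :=
  ∃ c : ℕ × ℕ → ℕ, Computable c ∧ ∀ (b m : ℕ) (X : D.V) (G : Type) [Group G] [Fintype G]
    (α : D.Act X G), D.Over b X → 2 ≤ D.genus X → Fintype.card G ≤ m → D.genus (D.quo α ⊤) = 0 →
      (R.branch α).ncard ≤ m → R.IsEtale b m α → R.HeightLe (D.quo α ⊤) (R.branch α) (c (b, m))

/-- The effective theorems of Baker and Coates on integral points on elliptic curves and on elliptic
curves with good reduction outside a finite set of places: if `X / G` has genus one (it has good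
reduction at the places in `Place b m`), and the branch locus has at most `m` points and is étale (so
that they are rational over an extension of bounded degree, unramified outside `S` and the primes
`≤ m`), and if the branch point `Q` is integral with respect to the branch point `P`, that is, has at
no place in `Place b m` the same specialisation (or `Q = P`), then the elliptic curve `(X / G, P)` and
its point `Q` have effectively bounded height. -/
def HasCoates : Prop :=
  ∃ c : ℕ × ℕ → ℕ, Computable c ∧ ∀ (b m : ℕ) (X : D.V) (G : Type) [Group G] [Fintype G]
    (α : D.Act X G), D.Over b X → 2 ≤ D.genus X → Fintype.card G ≤ m → D.genus (D.quo α ⊤) = 1 →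
      (R.branch α).ncard ≤ m → R.IsEtale b m α → ∀ P ∈ R.branch α, ∀ Q ∈ R.branch α,
        (Q ≠ P → ∀ v : R.Place b m, R.spQuo v α Q ≠ R.spQuo v α P) →
          R.Coord (D.quo α ⊤) P Q (c (b, m))

/-- `X / G` has genus at most one, and the height of the curve with its branch points is at most
`H`. -/
def IsBounded {X : D.V} {G : Type} [Group G] (α : D.Act X G) (H : ℕ) : Prop :=
  R.HeightLe (D.quo α ⊤) (R.branch α) H ∨
    ∃ P ∈ R.branch α, ∀ Q ∈ R.branch α, R.Coord (D.quo α ⊤) P Q H

/-- The theorem of Javanpykar (the conjecture of Edixhoven, de Jong and Schepers): the Faltings height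
of a covering of the projective line is bounded effectively in terms of its degree, of the heights, the
degrees and the number of its branch points. It is used for `X → X / G` if the genus of `X / G` is zero
and for the composition of `X → X / G` with the `x`-coordinate, which is a covering of degree `2 |G|`
branched in the images of the branch points and of the points of order at most two, if it is one. -/
def HasJavanpykar : Prop :=
  ∃ c : ℕ × ℕ × ℕ → ℕ, Computable c ∧ ∀ (b m H : ℕ) (X : D.V) (G : Type) [Group G] [Fintype G]
    (α : D.Act X G), D.Over b X → 2 ≤ D.genus X → Fintype.card G ≤ m →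
      (R.branch α).ncard ≤ m → R.IsBounded α H → D.hF (D.jac X) ≤ c (b, m, H)

/-- The formula of Hurwitz: there are at most `2 g + 2` branch points if the quotient has genus at most
one, and there is at least one if it has genus one; the degree of `X → X / G`. -/
def HasHurwitz : Prop :=
  ∀ (X : D.V) (G : Type) [Group G] [Fintype G] (α : D.Act X G), 2 ≤ D.genus X →
    D.deg (D.proj α ⊤) = Fintype.card G ∧
      (D.genus (D.quo α ⊤) ≤ 1 → (R.branch α).ncard ≤ 2 * D.genus X + 2) ∧
        (D.genus (D.quo α ⊤) = 1 → (R.branch α).Nonempty)

/-- Fields of definition: the automorphisms over the algebraic closure of a curve `X` over `K` of genus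
at least two and at most `m` with semi-stable reduction are defined over an unramified extension `K'`
of `K` of bounded degree, because the schemes of automorphisms of stable curves are finite and
unramified. So, by the theorem of Hermite, the code of `(K', S')`, `S'` the set of the places above
`S`, is bounded effectively. -/
def HasFields : Prop :=
  ∃ ν : ℕ × ℕ → ℕ, Computable ν ∧ ∀ (b m : ℕ) (X : D.V), D.Over b X → 2 ≤ D.genus X →
    D.genus X ≤ m → R.IsSymmetric X →
      ∃ (b' : ℕ) (X' : D.V), b' ≤ ν (b, m) ∧ R.BaseChange X X' ∧ D.Over b' X' ∧ HasSymmetry D X'

/-- Base change does not change the genus and the stable Faltings height of the Jacobian. -/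
def IsStable : Prop :=
  ∀ X X' : D.V, R.BaseChange X X' → D.genus X' = D.genus X ∧ D.hF (D.jac X') = D.hF (D.jac X)

/-- The data with more basic abelian varieties: also the Jacobians of the curves over `K`, of genus at
least two and at most `m`, with semi-stable reduction and good reduction outside `S`, which have over
the algebraic closure a finite group of automorphisms such that the quotient has genus at most one. -/
def extend : Curves 𝒜 :=
  { D with Basic := fun b m A => D.Basic b m A ∨
      ∃ X : D.V, D.Over b X ∧ 2 ≤ D.genus X ∧ D.genus X ≤ m ∧ R.IsSymmetric X ∧ A = D.jac X }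

/-- All facts which are used. -/
structure IsKnown (Def : ℕ → ℕ → 𝒜 → Prop) : Prop where
  effective : IsEffective D Def
  tame : R.AllTame
  hurwitz : R.HasHurwitz
  gyory : R.HasGyory
  coates : R.HasCoates
  javanpykar : R.HasJavanpykar
  fields : R.HasFields
  stable : R.IsStable

end Reductions

end Pool.Agent.Zk51.SG
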