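import Pool.Agent.Zk51.SG.Defs
import Pool.Agent.Zk51.SQ.Close

/-!
# Curves with many automorphisms: proofs
-/

set_option autoImplicit false

open CategoryTheory

namespace Pool.Agent.Zk51.SG

open Pool.Agent.Zk51.SP Pool.Agent.Zk51.SP.Curves Pool.Agent.Zk51.SQ

universe v u

variable {𝒜 : Type u} [Category.{v} 𝒜] [Preadditive 𝒜] {D : Curves 𝒜} {R : Reductions D}

/-- The branch locus is étale. -/
theorem isEtale {b m : ℕ} {X : D.V} {G : Type} [Group G] (α : D.Act X G)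
    (h : ∀ v : R.Place b m, R.IsTame v α) : R.IsEtale b m α := by
  rintro v y ⟨x, g, hg, hgx, rfl⟩ y' ⟨x', g', hg', hgx', rfl⟩ hsp
  have t := h v
  rw [t.sp_proj, t.sp_proj, t.orbitRed] at hsp
  obtain ⟨k, hk⟩ := hsp
  rw [← t.equivariant] at hk
  have h1 : R.pt (D.proj α ⊤) x = R.pt (D.proj α ⊤) (R.move α k x) :=
    (t.orbit _ _).2 ⟨k, rfl⟩
  rw [h1]
  have hgx₁ : R.move α (k * g * k⁻¹) (R.move α k x) = R.move α k x := by
    rw [← t.move_mul]
    have h2 : k * g * k⁻¹ * k = k * g := by group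
    rw [h2, t.move_mul, hgx]
  have hg₁ : k * g * k⁻¹ ≠ 1 := by
    intro h0
    apply hg
    exact mul_eq_left.1 (mul_inv_eq_one.1 h0)
  let I : Subgroup G :=
    { carrier := {z | R.moveRed v α z (R.sp v X x') = R.sp v X x'}
      mul_mem' := by
        intro a c ha hc
        have ha' : R.moveRed v α a (R.sp v X x') = R.sp v X x' := ha
        have hc' : R.moveRed v α c (R.sp v X x') = R.sp v X x' := hc
        change R.moveRed v α (a * c) (R.sp v X x') = R.sp v X x'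
        rw [t.red_mul, hc', ha']
      one_mem' := t.red_one _
      inv_mem' := by
        intro a ha
        have ha' : R.moveRed v α a (R.sp v X x') = R.sp v X x' := ha
        change R.moveRed v α a⁻¹ (R.sp v X x') = R.sp v X x'
        conv_lhs => rw [← ha']
        rw [← t.red_mul, inv_mul_cancel, t.red_one] }
  obtain ⟨w, hw, hI⟩ := t.lift I (R.sp v X x') (fun z hz => hz)
  have m1 : k * g * k⁻¹ ∈ I := by
    change R.moveRed v α _ (R.sp v X x') = R.sp v X x'
    rw [← hk, ← t.equivariant, hgx₁]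
  have m2 : g' ∈ I := by
    change R.moveRed v α _ (R.sp v X x') = R.sp v X x'
    rw [← t.equivariant, hgx']
  have e1 : R.move α k x = w := t.unique _ _ _ hg₁ hgx₁ (hI _ m1) (by rw [hk, hw])
  have e2 : x' = w := t.unique _ _ _ hg' hgx' (hI _ m2) hw.symm
  rw [e1, ← e2]

/-- The bound for curves with a group action over `K`. -/
def coverB (c₁ c₃ : ℕ × ℕ → ℕ) (c₂ : ℕ × ℕ × ℕ → ℕ) (x : ℕ × ℕ) : ℕ :=
  c₂ (x.1, 84 * x.2 + 2, c₁ (x.1, 84 * x.2 + 2)) + c₂ (x.1, 84 * x.2 + 2, c₃ (x.1, 84 * x.2 + 2))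

lemma computable_coverB {c₁ c₃ : ℕ × ℕ → ℕ} (h₁ : Computable c₁) (h₃ : Computable c₃)
    {c₂ : ℕ × ℕ × ℕ → ℕ} (h₂ : Computable c₂) : Computable (coverB c₁ c₃ c₂) := by
  have hmul : Computable₂ fun a b : ℕ => a * b := (Primrec.nat_mul).to_comp
  have hadd : Computable₂ fun a b : ℕ => a + b := (Primrec.nat_add).to_comp
  have h3 : Computable fun x : ℕ × ℕ => 84 * x.2 + 2 :=
    hadd.comp (hmul.comp (Computable.const 84) Computable.snd) (Computable.const 2)
  have h4 : Computable fun x : ℕ × ℕ => c₁ (x.1, 84 * x.2 + 2) :=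
    h₁.comp (Computable.fst.pair h3)
  have h5 : Computable fun x : ℕ × ℕ => c₃ (x.1, 84 * x.2 + 2) :=
    h₃.comp (Computable.fst.pair h3)
  exact hadd.comp (h₂.comp (Computable.fst.pair (h3.pair h4)))
    (h₂.comp (Computable.fst.pair (h3.pair h5)))

/-- The sum of the bounds for the codes `≤ ν (b, m)`. -/
def sumB (ν f : ℕ × ℕ → ℕ) (x : ℕ × ℕ) : ℕ :=
  Nat.rec (motive := fun _ => ℕ) (f (0, x.2)) (fun n r => r + f (n + 1, x.2)) (ν x)

lemma computable_sumB {ν f : ℕ × ℕ → ℕ} (hν : Computable ν) (hf : Computable f) :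
    Computable (sumB ν f) := by
  have hadd : Computable₂ fun a b : ℕ => a + b := (Primrec.nat_add).to_comp
  refine Computable.nat_rec (f := ν) (g := fun x : ℕ × ℕ => f (0, x.2))
    (h := fun (x : ℕ × ℕ) (y : ℕ × ℕ) => y.2 + f (y.1 + 1, x.2)) hν
    (hf.comp ((Computable.const 0).pair Computable.snd)) ?_
  have h1 : Computable fun z : (ℕ × ℕ) × ℕ × ℕ => f (z.2.1 + 1, z.1.2) :=
    hf.comp ((Computable.succ.comp (Computable.fst.comp Computable.snd)).pair
      (Computable.snd.comp Computable.fst))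
  exact (hadd.comp (Computable.snd.comp Computable.snd) h1).to₂

lemma le_sumB (ν f : ℕ × ℕ → ℕ) (b m b' : ℕ) (hb : b' ≤ ν (b, m)) :
    f (b', m) ≤ sumB ν f (b, m) := by
  unfold sumB
  generalize ν (b, m) = n at hb
  induction n with
  | zero =>
    have : b' = 0 := by omega
    subst this
    exact le_rfl
  | succ n ih =>
    rcases Nat.lt_or_ge n b' with h | h
    · have : b' = n + 1 := by omega
      subst this
      exact Nat.le_add_left _ _
    · exact (ih h).trans (Nat.le_add_right _ _)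

variable {Def : ℕ → ℕ → 𝒜 → Prop}

/-- The height of the quotient with its branch points. -/
theorem isBounded (h : R.IsKnown Def) :
    ∃ c₁ c₃ : ℕ × ℕ → ℕ, Computable c₁ ∧ Computable c₃ ∧ ∀ (b m : ℕ) (X : D.V) (G : Type) [Group G]
      [Fintype G] (α : D.Act X G), D.Over b X → 2 ≤ D.genus X → Fintype.card G ≤ m →
        D.genus (D.quo α ⊤) ≤ 1 → (R.branch α).ncard ≤ m →
          R.IsBounded α (c₁ (b, m)) ∨ R.IsBounded α (c₃ (b, m)) := by
  obtain ⟨c₁, hc₁, h₁⟩ := h.gyory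
  obtain ⟨c₃, hc₃, h₃⟩ := h.coates
  refine ⟨c₁, c₃, hc₁, hc₃, fun b m X G _ _ α hO hX hG hq hB => ?_⟩
  have he : R.IsEtale b m α := isEtale α fun v => h.tame v α hO hX hG
  rcases Nat.lt_or_ge (D.genus (D.quo α ⊤)) 1 with hq' | hq'
  · exact Or.inl (Or.inl (h₁ b m X G α hO hX hG (by omega) hB he))
  · have hq1 : D.genus (D.quo α ⊤) = 1 := le_antisymm hq hq'
    obtain ⟨P, hP⟩ := (h.hurwitz X G α hX).2.2 hq1
    refine Or.inr (Or.inr ⟨P, hP, fun Q hQ => h₃ b m X G α hO hX hG hq1 hB he P hP Q hQ ?_⟩)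
    exact fun hne v hsp => hne (he v Q hQ P hP hsp)

/-- The Faltings heights of the Jacobians of symmetric curves. -/
theorem height_le (h : R.IsKnown Def) :
    ∃ c : ℕ × ℕ → ℕ, Computable c ∧ ∀ (b m : ℕ) (X : D.V), D.Over b X → 2 ≤ D.genus X →
      D.genus X ≤ m → R.IsSymmetric X → D.hF (D.jac X) ≤ c (b, m) := by
  obtain ⟨c₁, c₃, hc₁, hc₃, h₁⟩ := isBounded h
  obtain ⟨c₂, hc₂, h₂⟩ := h.javanpykar
  obtain ⟨ν, hν, hf⟩ := h.fields
  refine ⟨sumB ν (coverB c₁ c₃ c₂), computable_sumB hν (computable_coverB hc₁ hc₃ hc₂),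
    fun b m X hO hX hm hG => ?_⟩
  obtain ⟨b', X', hb', hXX', hO', G, _, _, α, hq⟩ := hf b m X hO hX hm hG
  obtain ⟨e1, e2⟩ := h.stable X X' hXX'
  have hX' : 2 ≤ D.genus X' := by omega
  have h3 : Fintype.card G ≤ 84 * m + 2 := by
    have := h.effective.arakelov.geometry.card_le α hX'
    omega
  have h4 : (R.branch α).ncard ≤ 84 * m + 2 := by
    have := (h.hurwitz X' G α hX').2.1 hq
    omega
  have h6 : D.hF (D.jac X') ≤ coverB c₁ c₃ c₂ (b', m) := by
    unfold coverB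
    push_cast
    have p1 : (0 : ℝ) ≤ c₂ (b', 84 * m + 2, c₁ (b', 84 * m + 2)) := Nat.cast_nonneg _
    have p3 : (0 : ℝ) ≤ c₂ (b', 84 * m + 2, c₃ (b', 84 * m + 2)) := Nat.cast_nonneg _
    rcases h₁ b' (84 * m + 2) X' G α hO' hX' h3 hq h4 with h5 | h5
    · have := h₂ b' (84 * m + 2) _ X' G α hO' hX' h3 h4 h5
      linarith
    · have := h₂ b' (84 * m + 2) _ X' G α hO' hX' h3 h4 h5
      linarith
  rw [← e2]
  refine h6.trans ?_
  exact_mod_cast le_sumB ν (coverB c₁ c₃ c₂) b m b' hb'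

/-- Curves with at least `g` automorphisms. -/
theorem isSymmetric_of_many (h : R.IsKnown Def) {X : D.V} (hX : 2 ≤ D.genus X)
    (hm : R.HasMany X) : R.IsSymmetric X := by
  obtain ⟨X', hXX', G, iG, iF, α, hG⟩ := hm
  obtain ⟨e1, _⟩ := h.stable X X' hXX'
  refine ⟨X', hXX', G, iG, iF, α, ?_⟩
  by_contra hq
  have h1 := h.effective.arakelov.geometry.deg_le (D.proj α ⊤) (by omega)
  rw [(h.hurwitz X' G α (by omega)).1] at h1
  have h2 : Fintype.card G * 1 ≤ Fintype.card G * (D.genus (D.quo α ⊤) - 1) :=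
    Nat.mul_le_mul_left _ (by omega)
  omega

/-- All facts for the extended data. -/
theorem isEffective (h : R.IsKnown Def) : IsEffective R.extend Def := by
  obtain ⟨c, hc, hcs⟩ := height_le h
  have e := h.effective
  have hH := e.arakelov.height
  have hG := e.arakelov.geometry
  refine ⟨⟨⟨hH.torsion, hH.image, hH.product, hH.isogeny, hH.bost⟩,
    ⟨hG.pull_push, hG.deg_pos, hG.deg_le, hG.push_pull, hG.card_le, hG.line, hG.rational,
      hG.cyclic, hG.conj, fun α H b m hO hg hgood => Or.inl (hG.basic α H b m hO hg hgood)⟩,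
    e.arakelov.zhang, ?_⟩, ?_, e.isogeny, ?_⟩
  · obtain ⟨B, hB, hb⟩ := e.arakelov.shafarevich.bound
    refine ⟨?_, ?_, fun x => B x + c x, ?_, ?_⟩
    · rintro b m n A hmn (hA | ⟨X, h1, h2, h3, h4, h5⟩)
      · exact Or.inl (e.arakelov.shafarevich.mono _ _ _ _ hmn hA)
      · exact Or.inr ⟨X, h1, h2, h3.trans hmn, h4, h5⟩
    · rintro b m A (hA | ⟨X, h1, h2, h3, h4, rfl⟩)
      · exact e.arakelov.shafarevich.dim_le _ _ _ hA
      · exact (e.defn.dim_jac X).trans_le h3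
    · exact ((Primrec.nat_add).to_comp (f := fun a b : ℕ => a + b)).comp hB hc
    · rintro b m A (hA | ⟨X, h1, h2, h3, h4, rfl⟩)
      · refine (hb b m A hA).trans ?_
        push_cast
        have : (0 : ℝ) ≤ c (b, m) := Nat.cast_nonneg _
        linarith
      · refine (hcs b m X h1 h2 h3 h4).trans ?_
        push_cast
        have : (0 : ℝ) ≤ B (b, m) := Nat.cast_nonneg _
        linarith
  · refine ⟨e.defn.mono, e.defn.jac, e.defn.dim_jac, ?_, e.defn.product, e.defn.image⟩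
    rintro b m A (hA | ⟨X, h1, h2, h3, h4, rfl⟩)
    · exact e.defn.basic _ _ _ hA
    · exact e.defn.mono _ _ _ _ (by omega) (e.defn.jac b X h1)
  · obtain ⟨ε, hε, he⟩ := e.elliptic
    refine ⟨ε, hε, fun b X E u v n hO hd hn huv => ?_⟩
    obtain ⟨E', k, h1, h2⟩ := he b X E u v n hO hd hn huv
    exact ⟨E', k, Or.inl h1, h2⟩

/-- Effective small points on symmetric curves. -/
theorem small (h : R.IsKnown Def) :
    ∃ c : ℕ × ℕ → ℕ, Computable c ∧ ∀ (b : ℕ) (X : D.V), D.Over b X → 2 ≤ D.genus X →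
      R.IsSymmetric X → D.hF (D.jac X) ≤ c (b, D.genus X) ∧
        D.HasSmallPoints X (c (b, D.genus X)) := by
  obtain ⟨c, hc, hcs⟩ := height_le h
  have hmul : Computable₂ fun a b : ℕ => a * b := (Primrec.nat_mul).to_comp
  have hadd : Computable₂ fun a b : ℕ => a + b := (Primrec.nat_add).to_comp
  refine ⟨fun x => 6 * c x + 19, hadd.comp (hmul.comp (Computable.const 6) hc)
    (Computable.const 19), fun b X hO hX hs => ?_⟩
  have h1 := hcs b _ X hO hX le_rfl hs
  have h0 : (0 : ℝ) ≤ c (b, D.genus X) := Nat.cast_nonneg _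
  refine ⟨?_, ?_⟩
  · push_cast
    linarith
  · refine (h.effective.arakelov.zhang X hX).mono fun x hx => ?_
    have h2 : max (D.hF (D.jac X)) 0 ≤ c (b, D.genus X) := max_le h1 h0
    have hx' : D.h X x ≤ 6 * max (D.hF (D.jac X)) 0 + 19 := hx
    change D.h X x ≤ ((6 * c (b, D.genus X) + 19 : ℕ) : ℝ)
    push_cast
    linarith

/-- The Jacobians of symmetric curves are in the class. -/
theorem isFactor_of_symmetric {b : ℕ} {X : D.V} (hO : D.Over b X) (hX : 2 ≤ D.genus X)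
    (hs : R.IsSymmetric X) : IsFactor R.extend b (D.genus X) (D.jac X) := by
  refine ⟨1, 1, fun _ => D.jac X, fun _ => 𝟙 _, fun _ => 𝟙 _, by omega, le_rfl,
    fun _ => Or.inr ⟨X, hO, hX, le_rfl, hs, rfl⟩, ?_⟩
  simp

end Pool.Agent.Zk51.SG
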